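import Pool.Agent.Helper86.NB.St

/-! Project NB, module GTC. -/

set_option autoImplicit false

namespace Pool.Agent.Helper78.NB

open Filter Topology Pool.Agent.Helper86.NB Pool.Agent.Helper86.ML Pool.Agent.Helper67.Cour

section
variable {G : Type} [Group G] (A : Subgroup G) [A.Normal]

/-- `lf` as a homomorphism. -/
def lfh : A →* Gt A := MonoidHom.mk' (lf A) (lf_mul A)

theorem dg_inj : Function.Injective (dg A) := by
  intro x y h
  have := congrArg (fun z : Gt A => z.1.1) h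
  exact this

/-! ### (a) generation -/

theorem gen (a : A) (T : Set G) (U : Set (Gt A)) (hA : A = Subgroup.normalClosure {(a : G)})
    (hT : Subgroup.closure T = ⊤) (hTU : ∀ x ∈ T, dg A x ∈ U) (hU : lf A a ∈ U) :
    Subgroup.closure U = ⊤ := by
  set W : Subgroup (Gt A) := Subgroup.closure U with hW
  have hdg : ∀ x, dg A x ∈ W := by
    intro x
    have h1 : Subgroup.closure T ≤ W.comap (dg A) := by
      rw [Subgroup.closure_le]
      intro y hy
      exact Subgroup.subset_closure (hTU y hy)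
    have h2 : x ∈ Subgroup.closure T := by rw [hT]; trivial
    exact h1 h2
  let N : Subgroup G := (W.comap (lfh A)).map A.subtype
  have hN : N.Normal := by
    constructor
    rintro _ ⟨b, hb, rfl⟩ g
    refine ⟨⟨g * b * g⁻¹, Subgroup.Normal.conj_mem inferInstance _ b.2 g⟩, ?_, rfl⟩
    show lf A _ ∈ W
    rw [← dg_lf_dg]
    exact W.mul_mem (W.mul_mem (hdg g) hb) (hdg g⁻¹)
  have hle : Subgroup.normalClosure {(a : G)} ≤ N := by
    apply Subgroup.normalClosure_le_normal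
    rintro _ rfl
    exact ⟨a, Subgroup.subset_closure hU, rfl⟩
  have hlf : ∀ b : A, lf A b ∈ W := by
    intro b
    have h1 : (b : G) ∈ N := hle (hA ▸ b.2)
    obtain ⟨c, hc, hcb⟩ := h1
    have : c = b := Subtype.ext hcb
    rw [← this]
    exact hc
  rw [eq_top_iff]
  intro z _
  rw [eq_lf_mul_dg A z]
  exact W.mul_mem (hlf _) (hdg _)

/-! ### (b) sums -/

open Classical in
/-- The diagonal part. -/
noncomputable def mtD (κ : G → ℝ) (p : ℝ) (a : G) : Gt A → ℝ := fun z =>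
  if z.1.1 = z.1.2 then κ z.1.1 - ((if z.1.1 = a then p else 0) + if z.1.1 = a⁻¹ then p else 0)
    else 0

open Classical in
/-- The other part. -/
noncomputable def mtE (p : ℝ) (a : G) : Gt A → ℝ := fun z =>
  if z.1.2 = 1 then (if z.1.1 = a then p else 0) + (if z.1.1 = a⁻¹ then p else 0) else 0

theorem mt_eq (κ : G → ℝ) (p : ℝ) (a : G) (z : Gt A) : mt A κ p a z = mtD A κ p a z + mtE A p a z :=
  rfl

open Classical in
theorem mtD_dg (κ : G → ℝ) (p : ℝ) (a x : G) :
    mtD A κ p a (dg A x) = κ x - ((if x = a then p else 0) + if x = a⁻¹ then p else 0) := by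
  unfold mtD
  rw [if_pos]
  · rfl
  · rfl

theorem mtD_off (κ : G → ℝ) (p : ℝ) (a : G) (z : Gt A) (hz : z ∉ Set.range (dg A)) :
    mtD A κ p a z = 0 := by
  unfold mtD
  rw [if_neg]
  intro h
  apply hz
  refine ⟨z.1.1, Subtype.ext ?_⟩
  show (z.1.1, z.1.1) = z.1
  exact Prod.ext rfl h

open Classical in
theorem mtE_eq (p : ℝ) (a : A) (z : Gt A) :
    mtE A p a z = (if z = lf A a then p else 0) + (if z = lf A a⁻¹ then p else 0) := by
  unfold mtE
  have h1 : z = lf A a ↔ z.1.2 = 1 ∧ z.1.1 = (a : G) := by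
    constructor
    · rintro rfl; exact ⟨rfl, rfl⟩
    · rintro ⟨h1, h2⟩; exact Subtype.ext (Prod.ext h2 h1)
  have h2 : z = lf A a⁻¹ ↔ z.1.2 = 1 ∧ z.1.1 = (a : G)⁻¹ := by
    constructor
    · rintro rfl; exact ⟨rfl, rfl⟩
    · rintro ⟨h1, h2⟩; exact Subtype.ext (Prod.ext h2 h1)
  by_cases h : z.1.2 = 1
  · simp only [h, if_true, h1, h2, true_and]
  · simp only [h, if_false, h1, h2, false_and, add_zero]

theorem sumD (κ : G → ℝ) (p : ℝ) (a : A) (Ψ : Gt A → ℂ) (hκ : Prob κ) (hΨ : Bdd Ψ) :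
    HasSum (fun z => Ψ z * (mtD A κ p a z : ℂ)) ((∑' x, Ψ (dg A x) * (κ x : ℂ)) -
      p * (Ψ (dg A a) + Ψ (dg A (a : G)⁻¹))) := by
  classical
  have hoff : ∀ z ∉ Set.range (dg A), Ψ z * (mtD A κ p a z : ℂ) = 0 := by
    intro z hz
    rw [mtD_off A κ p a z hz]
    simp
  rw [← (dg_inj A).hasSum_iff hoff]
  obtain ⟨C, hC⟩ := hΨ
  have h1 : HasSum (fun x => Ψ (dg A x) * (κ x : ℂ)) (∑' x, Ψ (dg A x) * (κ x : ℂ)) := by
    apply Summable.hasSum
    refine Summable.of_norm_bounded (g := fun x => C * κ x) (hκ.summable.mul_left C) fun x => ?_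
    rw [norm_mul, Complex.norm_real, Real.norm_of_nonneg (hκ.nonneg x)]
    exact mul_le_mul_of_nonneg_right (hC _) (hκ.nonneg x)
  have h2 : ∀ b : G, HasSum (fun x => if x = b then Ψ (dg A b) * (p : ℂ) else 0)
      (Ψ (dg A b) * (p : ℂ)) := fun b => hasSum_ite_eq b _
  have h3 := h1.sub ((h2 (a : G)).add (h2 (a : G)⁻¹))
  have e : (∑' x, Ψ (dg A x) * (κ x : ℂ)) - p * (Ψ (dg A a) + Ψ (dg A (a : G)⁻¹)) =
      (∑' x, Ψ (dg A x) * (κ x : ℂ)) -
        (Ψ (dg A a) * (p : ℂ) + Ψ (dg A (a : G)⁻¹) * (p : ℂ)) := by ring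
  rw [e]
  refine h3.congr_fun ?_
  intro x
  show Ψ (dg A x) * (mtD A κ p a (dg A x) : ℂ) = _
  rw [mtD_dg]
  by_cases hx : x = (a : G)
  · have e1 : dg A (a : G) = dg A x := by rw [hx]
    by_cases hx' : x = (a : G)⁻¹
    · have e2 : dg A (a : G)⁻¹ = dg A x := by rw [← hx']
      rw [if_pos hx, if_pos hx', if_pos hx, if_pos hx', e1, e2]
      push_cast
      ring
    · rw [if_pos hx, if_neg hx', if_pos hx, if_neg hx', e1]
      push_cast
      ring
  · by_cases hx' : x = (a : G)⁻¹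
    · have e2 : dg A (a : G)⁻¹ = dg A x := by rw [← hx']
      rw [if_neg hx, if_pos hx', if_neg hx, if_pos hx', e2]
      push_cast
      ring
    · rw [if_neg hx, if_neg hx', if_neg hx, if_neg hx']
      push_cast
      ring

theorem sumE (p : ℝ) (a : A) (Ψ : Gt A → ℂ) :
    HasSum (fun z => Ψ z * (mtE A p a z : ℂ)) (p * (Ψ (lf A a) + Ψ (lf A a⁻¹))) := by
  classical
  have h2 : ∀ b : Gt A, HasSum (fun x => if x = b then Ψ b * (p : ℂ) else 0)
      (Ψ b * (p : ℂ)) := fun b => hasSum_ite_eq b _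
  have h3 := (h2 (lf A a)).add (h2 (lf A a⁻¹))
  have e : p * (Ψ (lf A a) + Ψ (lf A a⁻¹)) =
      Ψ (lf A a) * (p : ℂ) + Ψ (lf A a⁻¹) * (p : ℂ) := by ring
  rw [e]
  refine h3.congr_fun ?_
  intro z
  rw [mtE_eq]
  by_cases hx : z = lf A a
  · by_cases hx' : z = lf A a⁻¹
    · rw [if_pos hx, if_pos hx', if_pos hx, if_pos hx', ← hx, ← hx']
      push_cast
      ring
    · rw [if_pos hx, if_neg hx', if_pos hx, if_neg hx', ← hx]
      push_cast
      ring
  · by_cases hx' : z = lf A a⁻¹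
    · rw [if_neg hx, if_pos hx', if_neg hx, if_pos hx', ← hx']
      push_cast
      ring
    · rw [if_neg hx, if_neg hx', if_neg hx, if_neg hx']
      push_cast
      ring

theorem sumM (κ : G → ℝ) (p : ℝ) (a : A) (Ψ : Gt A → ℂ) (hκ : Prob κ) (hΨ : Bdd Ψ) :
    HasSum (fun z => Ψ z * (mt A κ p a z : ℂ)) ((∑' x, Ψ (dg A x) * (κ x : ℂ)) +
      p * (Ψ (lf A a) + Ψ (lf A a⁻¹) - Ψ (dg A a) - Ψ (dg A (a : G)⁻¹))) := by
  have h := (sumD A κ p a Ψ hκ hΨ).add (sumE A p a Ψ)
  have e : (∑' x, Ψ (dg A x) * (κ x : ℂ)) +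
      p * (Ψ (lf A a) + Ψ (lf A a⁻¹) - Ψ (dg A a) - Ψ (dg A (a : G)⁻¹)) =
      (∑' x, Ψ (dg A x) * (κ x : ℂ)) - p * (Ψ (dg A a) + Ψ (dg A (a : G)⁻¹)) +
      p * (Ψ (lf A a) + Ψ (lf A a⁻¹)) := by ring
  rw [e]
  refine h.congr_fun fun z => ?_
  rw [mt_eq]
  push_cast
  ring

/-! ### (c) courteous -/

theorem mtE_nonneg (p : ℝ) (hp : 0 ≤ p) (a : G) (z : Gt A) : 0 ≤ mtE A p a z := by
  unfold mtE
  split_ifs <;> linarith

theorem mtD_dg_pos {κ : G → ℝ} (hκ : Courteous κ) {p : ℝ} (hp : 0 < p) {a : G}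
    (hpa : 2 * p < κ a) (x : G) (hx : 0 < κ x) : 0 < mtD A κ p a (dg A x) := by
  classical
  rw [mtD_dg]
  by_cases h1 : x = a
  · rw [if_pos h1]
    have : κ x = κ a := by rw [h1]
    split_ifs <;> linarith
  · rw [if_neg h1]
    by_cases h2 : x = a⁻¹
    · rw [if_pos h2]
      have : κ x = κ a := by rw [h2, hκ.symm]
      linarith
    · rw [if_neg h2]
      linarith

theorem mtD_nonneg {κ : G → ℝ} (hκ : Courteous κ) {p : ℝ} (hp : 0 < p) {a : G}
    (hpa : 2 * p < κ a) (z : Gt A) : 0 ≤ mtD A κ p a z := by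
  classical
  by_cases hz : z ∈ Set.range (dg A)
  · obtain ⟨x, rfl⟩ := hz
    rcases (hκ.nonneg x).eq_or_lt with h | h
    · rw [mtD_dg]
      have h1 : x ≠ a := by rintro rfl; linarith
      have h2 : x ≠ a⁻¹ := by
        intro h2
        have : κ x = κ a := by rw [h2, hκ.symm]
        linarith
      rw [if_neg h1, if_neg h2]
      linarith
    · exact (mtD_dg_pos A hκ hp hpa x h).le
  · rw [mtD_off A κ p a z hz]

theorem mtD_le {κ : G → ℝ} {p : ℝ} (hp : 0 < p) (a x : G) : mtD A κ p a (dg A x) ≤ κ x := by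
  classical
  rw [mtD_dg]
  split_ifs <;> linarith

theorem mt_symm {κ : G → ℝ} (hκ : Courteous κ) (p : ℝ) (a : G) (z : Gt A) :
    mt A κ p a z⁻¹ = mt A κ p a z := by
  classical
  have e1 : (z⁻¹ : Gt A).1.1 = z.1.1⁻¹ := rfl
  have e2 : (z⁻¹ : Gt A).1.2 = z.1.2⁻¹ := rfl
  unfold Pool.Agent.Helper86.NB.mt
  rw [e1, e2]
  simp only [inv_inj, inv_eq_one, hκ.symm]
  have h1 : z.1.1⁻¹ = a ↔ z.1.1 = a⁻¹ := by rw [inv_eq_iff_eq_inv]
  simp only [h1]
  congr 1
  · congr 1
    rw [add_comm]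
  · congr 1
    rw [add_comm]

theorem courteous_mt {κ : G → ℝ} {p : ℝ} {a : A} (hκ : Courteous κ) (hp : 0 < p)
    (hpa : 2 * p < κ a) (hA : A = Subgroup.normalClosure {(a : G)}) : Courteous (mt A κ p a) := by
  classical
  have hn : ∀ z, 0 ≤ mt A κ p a z := fun z => by
    rw [mt_eq]
    exact add_nonneg (mtD_nonneg A hκ hp hpa z) (mtE_nonneg A p hp.le a z)
  refine ⟨hn, ?_, mt_symm A hκ p a, ?_, ?_⟩
  · have h := sumM A κ p a (fun _ => 1) ⟨hκ.nonneg, hκ.sum_one⟩ ⟨1, fun _ => by simp⟩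
    have h1 : ∑' x, (κ x : ℂ) = 1 := by
      rw [← Complex.ofReal_tsum, hκ.sum_one.tsum_eq, Complex.ofReal_one]
    simp only [one_mul, h1] at h
    have e : (1 : ℂ) + p * (1 + 1 - 1 - 1) = ((1 : ℝ) : ℂ) := by push_cast; ring
    rw [e] at h
    exact Complex.hasSum_ofReal.1 h
  · refine gen A a (Function.support κ) _ hA hκ.adapted ?_ ?_
    · intro x hx
      have hx0 : 0 < κ x := lt_of_le_of_ne (hκ.nonneg x) (Ne.symm hx)
      have h1 := mtD_dg_pos A hκ hp hpa x hx0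
      have h2 := mtE_nonneg A p hp.le (a : G) (dg A x)
      show mt A κ p a (dg A x) ≠ 0
      rw [mt_eq]
      linarith
    · have h1 := mtD_nonneg A hκ hp hpa (lf A a)
      have h2 : 0 < mtE A p (a : G) (lf A a) := by
        rw [mtE_eq, if_pos rfl]
        split_ifs <;> linarith
      show mt A κ p a (lf A a) ≠ 0
      rw [mt_eq]
      linarith
  · obtain ⟨S, hS, ζ, hζ, hsum⟩ := hκ.smooth
    have hgen : Subgroup.closure ((insert (lf A a) (S.image (dg A)) : Finset (Gt A)) :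
        Set (Gt A)) = ⊤ := by
      refine gen A a (S : Set G) _ hA hS ?_ ?_
      · intro x hx
        simp only [Finset.coe_insert, Finset.coe_image, Set.mem_insert_iff]
        exact Or.inr ⟨x, hx, rfl⟩
      · simp
    refine ⟨insert (lf A a) (S.image (dg A)), hgen, ζ, hζ, ?_⟩
    have hw : ∀ x, wlen (insert (lf A a) (S.image (dg A))) (dg A x) ≤ wlen S x := by
      intro x
      obtain ⟨l, h1, h2, h3⟩ := exists_word hS x
      rw [← h1, ← h3, map_list_prod, ← List.length_map (f := dg A)]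
      refine wlen_le fun c hc => ?_
      obtain ⟨b, hb, rfl⟩ := List.mem_map.1 hc
      rcases h2 b hb with h | h
      · exact Or.inl (Finset.mem_insert_of_mem (Finset.mem_image_of_mem _ h))
      · right
        rw [← map_inv]
        exact Finset.mem_insert_of_mem (Finset.mem_image_of_mem _ h)
    set S' := insert (lf A a) (S.image (dg A)) with hS'
    have hD : Summable fun z => mtD A κ p a z * Real.exp (ζ * wlen S' z) := by
      have hoff : ∀ z ∉ Set.range (dg A), mtD A κ p a z * Real.exp (ζ * wlen S' z) = 0 := by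
        intro z hz
        rw [mtD_off A κ p a z hz, zero_mul]
      rw [← (dg_inj A).summable_iff hoff]
      refine Summable.of_nonneg_of_le (fun x => ?_) (fun x => ?_) hsum
      · exact mul_nonneg (mtD_nonneg A hκ hp hpa _) (Real.exp_pos _).le
      · show mtD A κ p a (dg A x) * Real.exp (ζ * wlen S' (dg A x)) ≤ _
        refine mul_le_mul (mtD_le A hp a x) ?_ (Real.exp_pos _).le (hκ.nonneg x)
        apply Real.exp_le_exp.2
        have : (wlen S' (dg A x) : ℝ) ≤ wlen S x := by exact_mod_cast hw x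
        nlinarith
    have hE : Summable fun z => mtE A p (a : G) z * Real.exp (ζ * wlen S' z) := by
      refine summable_of_ne_finset_zero (s := {lf A a, lf A a⁻¹}) fun z hz => ?_
      rw [mtE_eq]
      simp only [Finset.mem_insert, Finset.mem_singleton, not_or] at hz
      rw [if_neg hz.1, if_neg hz.2, add_zero, zero_mul]
    refine (hD.add hE).congr fun z => ?_
    rw [mt_eq]
    ring

end

theorem hGTC : StGTC :=
  ⟨fun _ _ A _ a T U hA hT hTU hU => gen A a T U hA hT hTU hU,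
    fun _ _ A _ κ p a Ψ hκ hΨ => sumM A κ p a Ψ hκ hΨ,
    fun _ _ A _ _ _ _ hκ hp hpa hA => courteous_mt A hκ hp hpa hA⟩

end Pool.Agent.Helper78.NB
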